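import Mathlib
import Pool.Agent.H24.W.Def

/-!
# Weil's bound for multiplicative characters: definitions

`ch` is the character of monic polynomials, `bk` the coefficients of the L-function of a function `c` of monic
polynomials, `tn` its power sums.
-/

set_option autoImplicit false

namespace Pool.H37.WM

open Finset Polynomial
open Pool.Agent.H24.W (mo mem_mo)

variable {p : ℕ} [Fact p.Prime]

/-- the character of polynomials attached to `∏ (a - x) ^ (e a)` -/
noncomputable def ch (χ : DirichletCharacter ℂ p) (S : Finset (ZMod p)) (e : ZMod p → ℕ)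
    (g : (ZMod p)[X]) : ℂ := χ (∏ a ∈ S, g.eval a ^ e a)

/-- coefficients of the L-function -/
noncomputable def bk (c : (ZMod p)[X] → ℂ) (k : ℕ) : ℂ := ∑ g ∈ mo p k, c g

open Classical in
/-- power sums: sum over the closed points of degree dividing `n` -/
noncomputable def tn (c : (ZMod p)[X] → ℂ) (n : ℕ) : ℂ :=
  ∑ d ∈ n.divisors, ∑ P ∈ (mo p d).filter Irreducible, (d : ℂ) * c P ^ (n / d)

end Pool.H37.WM
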