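import Mathlib
import Pool.Agent.H37.WM.Def
import Pool.Agent.H24.W.B3
import Pool.Agent.H24.W.B6

/-!
# Newton's identity and the sum over an extension, for any multiplicative function of monic polynomials

Copy of `H24/W/B4` (`inner`, `newton`) and `H24/W/B6` (`sk_eq`) with an abstract `c` in place of `chi ψ S c t`.
-/

set_option autoImplicit false

namespace Pool.H37.WM

open Finset Polynomial
open Pool.Agent.H24.W (mo mem_mo)

variable {p : ℕ} [Fact p.Prime]

private theorem cpow (c : (ZMod p)[X] → ℂ) (h1 : c 1 = 1)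
    (hm : ∀ g h : (ZMod p)[X], g.Monic → h.Monic → c (g * h) = c g * c h)
    {g : (ZMod p)[X]} (hg : g.Monic) (n : ℕ) : c (g ^ n) = c g ^ n := by
  induction n with
  | zero => rw [pow_zero, pow_zero, h1]
  | succ n ih => rw [pow_succ, pow_succ, hm _ _ (hg.pow n) hg, ih]

open Classical in
private theorem inner (c : (ZMod p)[X] → ℂ) (h1 : c 1 = 1)
    (hm : ∀ g h : (ZMod p)[X], g.Monic → h.Monic → c (g * h) = c g * c h)
    (k d r : ℕ) (P : (ZMod p)[X]) (hP : P ∈ mo p d) :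
    ∑ g ∈ (mo p k).filter (fun g => P ^ r ∣ g), c g =
      if r * d ≤ k then c P ^ r * bk c (k - r * d) else 0 := by
  obtain ⟨hPm, hPd⟩ := (mem_mo d P).mp hP
  have hPr : (P ^ r).Monic := hPm.pow r
  have hPrd : (P ^ r).natDegree = r * d := by rw [hPm.natDegree_pow, hPd]
  split_ifs with h
  · unfold bk
    rw [Finset.mul_sum]
    refine (Finset.sum_bij (fun h _ => P ^ r * h) ?_ ?_ ?_ ?_).symm
    · intro f hf
      obtain ⟨hf1, hf2⟩ := (mem_mo _ f).mp hf
      rw [Finset.mem_filter, mem_mo]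
      refine ⟨⟨hPr.mul hf1, ?_⟩, dvd_mul_right _ _⟩
      rw [hPr.natDegree_mul hf1, hPrd, hf2]
      omega
    · intro f _ f' _ hff
      exact mul_left_cancel₀ hPr.ne_zero hff
    · intro g hg
      rw [Finset.mem_filter, mem_mo] at hg
      obtain ⟨⟨hg1, hg2⟩, f, rfl⟩ := hg
      have hf1 : f.Monic := hPr.of_mul_monic_left hg1
      refine ⟨f, ?_, rfl⟩
      rw [mem_mo]
      refine ⟨hf1, ?_⟩
      rw [hPr.natDegree_mul hf1, hPrd] at hg2
      omega
    · intro f hf
      obtain ⟨hf1, hf2⟩ := (mem_mo _ f).mp hf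
      rw [hm _ _ hPr hf1, cpow c h1 hm hPm]
  · refine Finset.sum_eq_zero fun g hg => ?_
    exfalso
    rw [Finset.mem_filter, mem_mo] at hg
    have h1 := natDegree_le_of_dvd hg.2 hg.1.1.ne_zero
    rw [hPrd, hg.1.2] at h1
    exact h h1

theorem newton (c : (ZMod p)[X] → ℂ) (h1 : c 1 = 1)
    (hm : ∀ g h : (ZMod p)[X], g.Monic → h.Monic → c (g * h) = c g * c h) (k : ℕ) :
    (k : ℂ) * bk c k = ∑ n ∈ Finset.Icc 1 k, tn c n * bk c (k - n) := by
  classical
  have h1a : (k : ℂ) * bk c k = ∑ d ∈ Finset.Icc 1 k, ∑ P ∈ (mo p d).filter Irreducible,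
      ∑ r ∈ Finset.Icc 1 k, (d : ℂ) *
        (if r * d ≤ k then c P ^ r * bk c (k - r * d) else 0) := by
    have h2 : (k : ℂ) * bk c k = ∑ g ∈ mo p k, ∑ d ∈ Finset.Icc 1 k,
        ∑ P ∈ (mo p d).filter Irreducible, ∑ r ∈ Finset.Icc 1 k,
          (if P ^ r ∣ g then (d : ℂ) * c g else 0) := by
      unfold bk
      rw [Finset.mul_sum]
      refine Finset.sum_congr rfl fun g hg => ?_
      have h3 : (k : ℂ) = ∑ d ∈ Finset.Icc 1 k, ∑ P ∈ (mo p d).filter Irreducible,
          (d : ℂ) * (((Finset.Icc 1 k).filter (fun r => P ^ r ∣ g)).card : ℂ) := by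
        have h4 := Pool.Agent.H24.W.deg_sum k g hg
        exact_mod_cast h4
      nth_rewrite 1 [h3]
      rw [Finset.sum_mul]
      refine Finset.sum_congr rfl fun d _ => ?_
      rw [Finset.sum_mul]
      refine Finset.sum_congr rfl fun P _ => ?_
      rw [← Finset.sum_filter, Finset.sum_const, nsmul_eq_mul]
      ring
    rw [h2, Finset.sum_comm]
    refine Finset.sum_congr rfl fun d hd => ?_
    rw [Finset.sum_comm]
    refine Finset.sum_congr rfl fun P hP => ?_
    rw [Finset.sum_comm]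
    refine Finset.sum_congr rfl fun r hr => ?_
    rw [← inner c h1 hm k d r P (Finset.mem_filter.mp hP).1, Finset.mul_sum,
      Finset.sum_filter]
  rw [h1a]
  have h5 : ∀ d ∈ Finset.Icc 1 k, ∑ P ∈ (mo p d).filter Irreducible,
      ∑ r ∈ Finset.Icc 1 k, (d : ℂ) *
        (if r * d ≤ k then c P ^ r * bk c (k - r * d) else 0) =
      ∑ r ∈ Finset.Icc 1 k, (if r * d ≤ k then (∑ P ∈ (mo p d).filter Irreducible,
        (d : ℂ) * c P ^ r) * bk c (k - r * d) else 0) := by
    intro d _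
    rw [Finset.sum_comm]
    refine Finset.sum_congr rfl fun r _ => ?_
    split_ifs with h6
    · rw [Finset.sum_mul]
      refine Finset.sum_congr rfl fun P _ => ?_
      ring
    · simp
  rw [Finset.sum_congr rfl h5, ← Finset.sum_product', ← Finset.sum_filter]
  unfold tn
  have h7 : ∀ n ∈ Finset.Icc 1 k, (∑ d ∈ n.divisors, ∑ P ∈ (mo p d).filter Irreducible,
      (d : ℂ) * c P ^ (n / d)) * bk c (k - n) =
      ∑ d ∈ n.divisors, (∑ P ∈ (mo p d).filter Irreducible,
        (d : ℂ) * c P ^ (n / d)) * bk c (k - n) := fun n _ => by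
    rw [Finset.sum_mul]
  rw [Finset.sum_congr rfl h7, Finset.sum_sigma']
  refine Finset.sum_bij' (fun x _ => ⟨x.2 * x.1, x.1⟩) (fun y _ => (y.2, y.1 / y.2)) ?_ ?_ ?_ ?_ ?_
  · rintro ⟨d, r⟩ hx
    rw [Finset.mem_filter, Finset.mem_product, Finset.mem_Icc, Finset.mem_Icc] at hx
    simp only at hx
    obtain ⟨⟨⟨hd1, hd2⟩, hr1, hr2⟩, hrd⟩ := hx
    rw [Finset.mem_sigma, Finset.mem_Icc, Nat.mem_divisors]
    have h8 : 0 < r * d := Nat.mul_pos hr1 hd1
    exact ⟨⟨h8, hrd⟩, dvd_mul_left d r, h8.ne'⟩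
  · rintro ⟨n, d⟩ hx
    rw [Finset.mem_sigma, Finset.mem_Icc, Nat.mem_divisors] at hx
    obtain ⟨⟨hn1, hn2⟩, hdn, hn0⟩ := hx
    simp only at hn1 hn2 hdn hn0
    have hdpos : 0 < d := Nat.pos_of_dvd_of_pos hdn hn1
    have hdle : d ≤ n := Nat.le_of_dvd hn1 hdn
    have hq : 0 < n / d := Nat.div_pos hdle hdpos
    have hq2 : n / d ≤ n := Nat.div_le_self n d
    rw [Finset.mem_filter, Finset.mem_product, Finset.mem_Icc, Finset.mem_Icc]
    simp only
    rw [Nat.div_mul_cancel hdn]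
    exact ⟨⟨⟨hdpos, by omega⟩, hq, by omega⟩, hn2⟩
  · rintro ⟨d, r⟩ hx
    rw [Finset.mem_filter, Finset.mem_product, Finset.mem_Icc, Finset.mem_Icc] at hx
    simp only at hx
    obtain ⟨⟨⟨hd1, hd2⟩, hr1, hr2⟩, hrd⟩ := hx
    simp only [Prod.mk.injEq, true_and]
    exact Nat.mul_div_cancel r hd1
  · rintro ⟨n, d⟩ hx
    rw [Finset.mem_sigma, Finset.mem_Icc, Nat.mem_divisors] at hx
    obtain ⟨⟨hn1, hn2⟩, hdn, hn0⟩ := hx
    simp only at hn1 hn2 hdn hn0
    simp only [Sigma.mk.injEq, heq_eq_eq, and_true]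
    exact Nat.div_mul_cancel hdn
  · rintro ⟨d, r⟩ hx
    rw [Finset.mem_filter, Finset.mem_product, Finset.mem_Icc, Finset.mem_Icc] at hx
    simp only at hx
    obtain ⟨⟨⟨hd1, hd2⟩, hr1, hr2⟩, hrd⟩ := hx
    simp only
    rw [Nat.mul_div_cancel r hd1]

theorem sum_min {K : Type} [Field K] [Fintype K] [Algebra (ZMod p) K] (c : (ZMod p)[X] → ℂ) :
    ∑ x : K, c (minpoly (ZMod p) x) ^
      (Module.finrank (ZMod p) K / (minpoly (ZMod p) x).natDegree) =
      tn c (Module.finrank (ZMod p) K) := by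
  classical
  obtain ⟨n, hn⟩ : ∃ n, n = Module.finrank (ZMod p) K := ⟨_, rfl⟩
  have hnpos : 0 < n := hn ▸ Module.finrank_pos
  rw [← hn]
  have hmem : ∀ x : K, minpoly (ZMod p) x ∈
      n.divisors.biUnion fun d => (mo p d).filter Irreducible := by
    intro x
    have hint : IsIntegral (ZMod p) x := Algebra.IsIntegral.isIntegral x
    rw [Finset.mem_biUnion]
    refine ⟨(minpoly (ZMod p) x).natDegree, ?_, ?_⟩
    · rw [Nat.mem_divisors]
      refine ⟨?_, hnpos.ne'⟩
      rw [hn]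
      exact minpoly.degree_dvd hint
    · rw [Finset.mem_filter, mem_mo]
      exact ⟨⟨minpoly.monic hint, rfl⟩, minpoly.irreducible hint⟩
  rw [← Finset.sum_fiberwise_of_maps_to (s := Finset.univ) (g := fun x : K => minpoly (ZMod p) x)
    (fun x _ => hmem x)]
  unfold tn
  rw [Finset.sum_biUnion]
  · refine Finset.sum_congr rfl fun d hd => Finset.sum_congr rfl fun P hP => ?_
    rw [Finset.mem_filter, mem_mo] at hP
    rw [Nat.mem_divisors] at hd
    rw [Finset.sum_congr rfl (g := fun _ => c P ^ (n / d))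
      (fun x hx => by rw [(Finset.mem_filter.mp hx).2, hP.1.2]), Finset.sum_const,
      nsmul_eq_mul]
    congr 1
    have h5 := Pool.Agent.H24.W.card_min (K := K) P hP.1.1 hP.2 (by rw [hP.1.2, ← hn]; exact hd.1)
    rw [hP.1.2, Nat.card_eq_fintype_card, Fintype.card_subtype] at h5
    rw [h5]
  · intro d _ d' _ hdd
    rw [Function.onFun, Finset.disjoint_left]
    intro P hP hP'
    rw [Finset.mem_filter, mem_mo] at hP hP'
    exact hdd (hP.1.2.symm.trans hP'.1.2)

end Pool.H37.WM
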