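import Mathlib
import Pool.Agent.H37.WM.Def

/-!
# The norm of `a - x` is `P(a) ^ (n / d)`, `P` the minimal polynomial of `x`
-/

set_option autoImplicit false

namespace Pool.H37.WM

open Finset Polynomial IntermediateField
open Pool.Agent.H24.W (mo mem_mo)

variable {p : ℕ} [Fact p.Prime]

private theorem fr_eq {K : Type} [Field K] [Fintype K] [Algebra (ZMod p) K] (z : K) :
    Module.finrank (IntermediateField.adjoin (ZMod p) {z}) K =
      Module.finrank (ZMod p) K / (minpoly (ZMod p) z).natDegree := by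
  have h1 := Module.finrank_mul_finrank (ZMod p) (IntermediateField.adjoin (ZMod p) {z}) K
  have hint : IsIntegral (ZMod p) z := Algebra.IsIntegral.isIntegral z
  rw [IntermediateField.adjoin.finrank hint] at h1
  rw [← h1, Nat.mul_div_cancel_left _ (minpoly.natDegree_pos hint)]

theorem norm_sub {K : Type} [Field K] [Fintype K] [Algebra (ZMod p) K] (x : K) (a : ZMod p) :
    Algebra.norm (ZMod p) (algebraMap (ZMod p) K a - x) = (minpoly (ZMod p) x).eval a ^
      (Module.finrank (ZMod p) K / (minpoly (ZMod p) x).natDegree) := by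
  have hint : IsIntegral (ZMod p) x := Algebra.IsIntegral.isIntegral x
  obtain ⟨y, hy⟩ : ∃ y, y = x - algebraMap (ZMod p) K a := ⟨_, rfl⟩
  have hinty : IsIntegral (ZMod p) y := Algebra.IsIntegral.isIntegral y
  have hP1 : minpoly (ZMod p) y = (minpoly (ZMod p) x).comp (X + C a) := by
    rw [hy]
    exact minpoly.sub_algebraMap x a
  have hd1 : (minpoly (ZMod p) y).natDegree = (minpoly (ZMod p) x).natDegree := by
    rw [hP1, natDegree_comp, natDegree_X_add_C, mul_one]
  have hc : (minpoly (ZMod p) y).coeff 0 = (minpoly (ZMod p) x).eval a := by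
    rw [hP1]
    have h6 : (minpoly (ZMod p) x).comp (X + C a) = taylor a (minpoly (ZMod p) x) := rfl
    rw [h6, taylor_coeff_zero]
  have hNy : Algebra.norm (ZMod p) y = ((-1) ^ (minpoly (ZMod p) x).natDegree *
      (minpoly (ZMod p) x).eval a) ^
      (Module.finrank (ZMod p) K / (minpoly (ZMod p) x).natDegree) := by
    rw [Algebra.norm_eq_norm_adjoin (ZMod p) y, fr_eq, hd1]
    congr 1
    have h2 := Algebra.PowerBasis.norm_gen_eq_coeff_zero_minpoly (adjoin.powerBasis hinty)
    rw [adjoin.powerBasis_gen, minpoly_gen, adjoin.powerBasis_dim, hd1, hc] at h2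
    exact h2
  have hN : Algebra.norm (ZMod p) (algebraMap (ZMod p) K a - x) =
      (-1) ^ Module.finrank (ZMod p) K * Algebra.norm (ZMod p) y := by
    have h3 : algebraMap (ZMod p) K a - x = algebraMap (ZMod p) K (-1) * y := by
      rw [hy, map_neg, map_one]
      ring
    rw [h3, map_mul, Algebra.norm_algebraMap]
  rw [hN, hNy, mul_pow, ← pow_mul, Nat.mul_div_cancel' (minpoly.degree_dvd hint), ← mul_assoc,
    ← mul_pow]
  norm_num

theorem ch_min {K : Type} [Field K] [Fintype K] [Algebra (ZMod p) K] (χ : DirichletCharacter ℂ p)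
    (S : Finset (ZMod p)) (e : ZMod p → ℕ) (x : K) :
    ch χ S e (minpoly (ZMod p) x) ^ (Module.finrank (ZMod p) K / (minpoly (ZMod p) x).natDegree) =
      χ (Algebra.norm (ZMod p) (∏ a ∈ S, (algebraMap (ZMod p) K a - x) ^ e a)) := by
  unfold ch
  rw [← map_pow, map_prod, ← prod_pow]
  congr 1
  refine prod_congr rfl fun a _ => ?_
  rw [map_pow, norm_sub, ← pow_mul, ← pow_mul, mul_comm]

theorem ch_one (χ : DirichletCharacter ℂ p) (S : Finset (ZMod p)) (e : ZMod p → ℕ) :
    ch χ S e 1 = 1 := by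
  unfold ch
  simp

theorem ch_mul (χ : DirichletCharacter ℂ p) (S : Finset (ZMod p)) (e : ZMod p → ℕ)
    (g h : (ZMod p)[X]) : ch χ S e (g * h) = ch χ S e g * ch χ S e h := by
  unfold ch
  rw [← map_mul, ← prod_mul_distrib]
  congr 1
  refine prod_congr rfl fun a _ => ?_
  rw [eval_mul, mul_pow]

theorem bk_zero (χ : DirichletCharacter ℂ p) (S : Finset (ZMod p)) (e : ZMod p → ℕ) :
    bk (ch χ S e) 0 = 1 := by
  have h : mo p 0 = {1} := by
    ext g
    rw [mem_mo, Finset.mem_singleton]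
    constructor
    · rintro ⟨h1, h2⟩
      exact eq_one_of_monic_natDegree_zero h1 h2
    · rintro rfl
      exact ⟨monic_one, natDegree_one⟩
  rw [bk, h, Finset.sum_singleton, ch_one]

theorem bk_van (χ : DirichletCharacter ℂ p) (S : Finset (ZMod p)) (e : ZMod p → ℕ) (a0 : ZMod p)
    (ha0 : a0 ∈ S) (v : ZMod p) (hv : v ≠ 0) (hχv : χ (v ^ e a0) ≠ 1) (k : ℕ) (hk : S.card ≤ k) :
    bk (ch χ S e) k = 0 := by
  classical
  obtain ⟨h, hh⟩ : ∃ h : (ZMod p)[X], h = ∏ b ∈ S.erase a0, (X - C b) := ⟨_, rfl⟩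
  have hhd : h.natDegree < k := by
    rw [hh, natDegree_prod_of_monic _ _ fun b _ => monic_X_sub_C b]
    simp only [natDegree_X_sub_C, sum_const, smul_eq_mul, mul_one]
    rw [card_erase_of_mem ha0]
    have : 0 < S.card := card_pos.2 ⟨a0, ha0⟩
    omega
  have hh0 : h.eval a0 ≠ 0 := by
    rw [hh, eval_prod, prod_ne_zero_iff]
    intro b hb
    rw [eval_sub, eval_X, eval_C, sub_ne_zero]
    exact (ne_of_mem_erase hb).symm
  have hhb : ∀ b ∈ S, b ≠ a0 → h.eval b = 0 := by
    intro b hb hb0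
    rw [hh, eval_prod]
    refine prod_eq_zero (mem_erase.2 ⟨hb0, hb⟩) ?_
    simp
  have hmap : ∀ (w : ZMod p) (g : (ZMod p)[X]), g ∈ mo p k →
      g + C ((w - 1) * g.eval a0 / h.eval a0) * h ∈ mo p k := by
    intro w g hg
    rw [mem_mo] at hg ⊢
    obtain ⟨hg1, hg2⟩ := hg
    have hdeg : (C ((w - 1) * g.eval a0 / h.eval a0) * h).degree < g.degree := by
      rw [degree_eq_natDegree hg1.ne_zero, hg2]
      refine lt_of_le_of_lt degree_le_natDegree ?_
      have := natDegree_C_mul_le ((w - 1) * g.eval a0 / h.eval a0) h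
      exact_mod_cast lt_of_le_of_lt this hhd
    exact ⟨hg1.add_of_left hdeg, by rw [natDegree_add_eq_left_of_degree_lt hdeg, hg2]⟩
  have hev : ∀ (w : ZMod p) (g : (ZMod p)[X]),
      (g + C ((w - 1) * g.eval a0 / h.eval a0) * h).eval a0 = w * g.eval a0 := by
    intro w g
    rw [eval_add, eval_mul, eval_C, div_mul_cancel₀ _ hh0]
    ring
  have hevb : ∀ (w : ZMod p) (g : (ZMod p)[X]) (b : ZMod p), b ∈ S → b ≠ a0 →
      (g + C ((w - 1) * g.eval a0 / h.eval a0) * h).eval b = g.eval b := by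
    intro w g b hb hb0
    rw [eval_add, eval_mul, eval_C, hhb b hb hb0, mul_zero, add_zero]
  have hcomp : ∀ (w : ZMod p) (g : (ZMod p)[X]), w ≠ 0 →
      (g + C ((w - 1) * g.eval a0 / h.eval a0) * h) +
        C ((w⁻¹ - 1) * (g + C ((w - 1) * g.eval a0 / h.eval a0) * h).eval a0 / h.eval a0) * h =
        g := by
    intro w g hw
    rw [hev, add_assoc, ← add_mul, ← C_add]
    have : (w - 1) * g.eval a0 / h.eval a0 + (w⁻¹ - 1) * (w * g.eval a0) / h.eval a0 = 0 := by
      field_simp
      ring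
    rw [this, C_0, zero_mul, add_zero]
  have hch : ∀ g : (ZMod p)[X], ch χ S e (g + C ((v - 1) * g.eval a0 / h.eval a0) * h) =
      χ (v ^ e a0) * ch χ S e g := by
    intro g
    unfold ch
    rw [← map_mul, ← mul_prod_erase S _ ha0, ← mul_prod_erase S (fun a => g.eval a ^ e a) ha0,
      hev, mul_pow, mul_assoc]
    congr 2
    congr 1
    refine prod_congr rfl fun b hb => ?_
    rw [hevb v g b (mem_of_mem_erase hb) (ne_of_mem_erase hb)]
  have hsum : bk (ch χ S e) k = χ (v ^ e a0) * bk (ch χ S e) k := by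
    unfold bk
    rw [mul_sum]
    refine (Finset.sum_nbij' (fun g => g + C ((v - 1) * g.eval a0 / h.eval a0) * h)
      (fun g => g + C ((v⁻¹ - 1) * g.eval a0 / h.eval a0) * h) (fun g hg => hmap v g hg)
      (fun g hg => hmap v⁻¹ g hg) (fun g _ => hcomp v g hv) (fun g _ => ?_)
      (fun g _ => (hch g).symm)).symm
    have := hcomp v⁻¹ g (inv_ne_zero hv)
    rwa [inv_inv] at this
  have h3 : (1 - χ (v ^ e a0)) * bk (ch χ S e) k = 0 := by
    rw [sub_mul, one_mul, ← hsum, sub_self]
  exact (mul_eq_zero.1 h3).resolve_left (sub_ne_zero.2 (Ne.symm hχv))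

end Pool.H37.WM
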