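import Mathlib
import Pool.Agent.H19.WE.WC

/-!
# Stepanov's method for Kummer coverings

`K` has `q0 ^ 2` elements, `q0 = p ^ μ = (p - 1) A0 + 1`, `f` of degree `r = 1 + (p - 1) r'`, `g = f ^ A0`, `A = A0 - r'`.
If `f(x) ^ (A0 (q0 + 1)) = u ≠ 0` then `g g^q0 = u`.  A relation `∑ a_ij x^(i q0) u^j g^(p-2-j) = 0` (`i < A`, `j < p - 1`,
`deg a_ij ≤ A + 2 r + 1`) gives `∑ a_ij(x)^q0 x^i g(x)^j = 0` at all such `x`, and this polynomial is not zero: its terms
have the degrees `q0 (deg a_ij + j r') + (i + j A)`, `i + j A < q0`.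
-/

set_option autoImplicit false

namespace Pool.H37.WM

open Finset Polynomial

variable {K : Type} [Field K]

/-- terms of `F` -/
noncomputable def Ft (q0 A0 : ℕ) (f a : K[X]) (i j : ℕ) : K[X] := a ^ q0 * X ^ i * (f ^ A0) ^ j

theorem natDegree_Ft (q0 A0 d r' : ℕ) (hq : q0 = d * A0 + 1) (hA : r' < A0) (f : K[X])
    (hf : f.natDegree = 1 + d * r') (hf0 : f ≠ 0) (a : K[X]) (ha : a ≠ 0) (i j : ℕ) :
    (Ft q0 A0 f a i j).natDegree = q0 * (a.natDegree + j * r') + (i + j * (A0 - r')) := by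
  unfold Ft
  rw [natDegree_mul (mul_ne_zero (pow_ne_zero _ ha) (pow_ne_zero _ X_ne_zero))
    (pow_ne_zero _ (pow_ne_zero _ hf0)),
    natDegree_mul (pow_ne_zero _ ha) (pow_ne_zero _ X_ne_zero), natDegree_pow, natDegree_pow,
    natDegree_pow, natDegree_pow, natDegree_X, hf, mul_one]
  obtain ⟨A, rfl⟩ : ∃ A, A0 = A + r' := ⟨A0 - r', by omega⟩
  rw [Nat.add_sub_cancel, hq]
  ring

theorem F_ne_zero (q0 A0 d r' : ℕ) (hq : q0 = d * A0 + 1) (hA : r' < A0) (f : K[X])
    (hf : f.natDegree = 1 + d * r') (hf0 : f ≠ 0) (a : Fin (A0 - r') × Fin d → K[X])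
    (ha : ∃ x, a x ≠ 0) : ∑ x, Ft q0 A0 f (a x) x.1 x.2 ≠ 0 := by
  classical
  have hq0 : q0 ≠ 0 := by omega
  have hnz : ∀ z : Fin (A0 - r') × Fin d, a z ≠ 0 → Ft q0 A0 f (a z) z.1 z.2 ≠ 0 := by
    intro z hz
    unfold Ft
    exact mul_ne_zero (mul_ne_zero (pow_ne_zero _ hz) (pow_ne_zero _ X_ne_zero))
      (pow_ne_zero _ (pow_ne_zero _ hf0))
  have hdeg := Polynomial.degree_sum_eq_of_disjoint
    (fun x : Fin (A0 - r') × Fin d => Ft q0 A0 f (a x) x.1 x.2) Finset.univ ?_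
  · obtain ⟨x, hx⟩ := ha
    intro h0
    have h1 : (∑ x, Ft q0 A0 f (a x) x.1 x.2).degree = ⊥ := by rw [h0, degree_zero]
    rw [hdeg] at h1
    have h2 : (Ft q0 A0 f (a x) x.1 x.2).degree ≤
        Finset.univ.sup fun i : Fin (A0 - r') × Fin d => (Ft q0 A0 f (a i) i.1 i.2).degree :=
      Finset.le_sup (f := fun i : Fin (A0 - r') × Fin d => (Ft q0 A0 f (a i) i.1 i.2).degree)
        (Finset.mem_univ x)
    rw [h1, le_bot_iff, degree_eq_bot] at h2
    exact hnz x hx h2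
  · intro x hx y hy hxy
    have hane : ∀ z : Fin (A0 - r') × Fin d, Ft q0 A0 f (a z) z.1 z.2 ≠ 0 → a z ≠ 0 := by
      intro z hz h0
      apply hz
      unfold Ft
      rw [h0, zero_pow hq0]
      simp
    have hax := hane x hx.2
    have hay := hane y hy.2
    intro heq
    simp only [Function.comp] at heq
    have h3 : (Ft q0 A0 f (a x) x.1 x.2).natDegree = (Ft q0 A0 f (a y) y.1 y.2).natDegree :=
      natDegree_eq_of_degree_eq heq
    rw [natDegree_Ft q0 A0 d r' hq hA f hf hf0 _ hax, natDegree_Ft q0 A0 d r' hq hA f hf hf0 _ hay]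
      at h3
    apply hxy
    have hlt' : ∀ i j : ℕ, i < A0 - r' → j < d → i + j * (A0 - r') < q0 := by
      intro i j h4 h5
      obtain ⟨A, hA'⟩ : ∃ A, A = A0 - r' := ⟨_, rfl⟩
      rw [← hA'] at h4 ⊢
      have e : A0 = A + r' := by omega
      have h6 : (j + 1) * A ≤ d * A := Nat.mul_le_mul_right _ h5
      rw [hq, e]
      nlinarith [Nat.zero_le (d * r')]
    have hlt : ∀ z : Fin (A0 - r') × Fin d, (z.1 : ℕ) + z.2 * (A0 - r') < q0 :=
      fun z => hlt' _ _ z.1.2 z.2.2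
    have h7 : (x.1 : ℕ) + x.2 * (A0 - r') = (y.1 : ℕ) + y.2 * (A0 - r') := by
      have h8 := congrArg (· % q0) h3
      simp only [Nat.mul_add_mod] at h8
      rwa [Nat.mod_eq_of_lt (hlt x), Nat.mod_eq_of_lt (hlt y)] at h8
    have hx1 := x.1.2
    have hy1 := y.1.2
    have h9 : (x.2 : ℕ) = y.2 := by
      have e1 : ((x.1 : ℕ) + x.2 * (A0 - r')) / (A0 - r') = x.2 := by
        rw [Nat.add_mul_div_right _ _ (by omega), Nat.div_eq_of_lt hx1, zero_add]
      have e2 : ((y.1 : ℕ) + y.2 * (A0 - r')) / (A0 - r') = y.2 := by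
        rw [Nat.add_mul_div_right _ _ (by omega), Nat.div_eq_of_lt hy1, zero_add]
      rw [← e1, ← e2, h7]
    have h10 : (x.1 : ℕ) = y.1 := by
      rw [h9] at h7
      omega
    exact Prod.ext (Fin.ext h10) (Fin.ext h9)

open Classical in
/-- Stepanov's bound for `f(x) ^ (A0 (q0 + 1)) = u` -/
theorem count (p μ A0 r' : ℕ) [Fact p.Prime] [Fintype K] [CharP K p]
    (hq : p ^ μ = (p - 1) * A0 + 1)
    (hK : Fintype.card K = (p ^ μ) ^ 2) (f : K[X]) (hf : f.natDegree = 1 + (p - 1) * r')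
    (hbig : 2 * (1 + (p - 1) * r') + 3 ≤ p ^ μ) (u : K) (hu : u ≠ 0) :
    (Finset.univ.filter fun x : K => f.eval x ^ (A0 * (p ^ μ + 1)) = u).card ≤
      A0 * p ^ μ + (3 * (1 + (p - 1) * r') + 2) * p ^ μ := by
  have hp : p.Prime := Fact.out
  have hp2 : 2 ≤ p := hp.two_le
  obtain ⟨q0, hq0⟩ : ∃ q0, q0 = p ^ μ := ⟨_, rfl⟩
  obtain ⟨d, hd⟩ : ∃ d, d = p - 1 := ⟨_, rfl⟩
  obtain ⟨r, hr⟩ : ∃ r, r = 1 + d * r' := ⟨_, rfl⟩
  have hd1 : 1 ≤ d := by omega
  rw [← hd, ← hr] at hf hbig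
  rw [← hd] at hq
  rw [← hd, ← hr]
  rw [← hq0] at hq hK hbig ⊢
  have hA : r' < A0 := by
    by_contra h
    push Not at h
    have : d * A0 ≤ d * r' := Nat.mul_le_mul_left _ h
    omega
  have hf0 : f ≠ 0 := by
    rintro rfl
    simp at hf
    omega
  -- the relation
  have hM : ∀ x : Fin (A0 - r') × Fin d, (X ^ ((x.1 : ℕ) * q0) * C (u ^ (x.2 : ℕ)) *
      (f ^ A0) ^ (d - 1 - (x.2 : ℕ)) : K[X]).natDegree ≤ (A0 - r' - 1) * q0 + (d - 1) * (r * A0) := by
    intro x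
    refine natDegree_mul_le.trans (Nat.add_le_add (natDegree_mul_le.trans ?_) ?_)
    · rw [natDegree_X_pow, natDegree_C, add_zero]
      exact Nat.mul_le_mul_right _ (by have := x.1.2; omega)
    · rw [natDegree_pow, natDegree_pow, hf, mul_comm A0 r]
      exact Nat.mul_le_mul_right _ (by omega)
  obtain ⟨a, haD, ha0, hrel⟩ := Pool.Agent.H19.WE.exists_relation (K := K)
    (fun x : Fin (A0 - r') × Fin d => X ^ ((x.1 : ℕ) * q0) * C (u ^ (x.2 : ℕ)) *
      (f ^ A0) ^ (d - 1 - (x.2 : ℕ))) ((A0 - r' - 1) * q0 + (d - 1) * (r * A0))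
    (A0 - r' + 2 * r + 1) hM (by
      rw [Fintype.card_prod, Fintype.card_fin, Fintype.card_fin]
      obtain ⟨A, hAA⟩ : ∃ A, A0 = A + 1 + r' := ⟨A0 - r' - 1, by omega⟩
      have e1 : A0 - r' = A + 1 := by omega
      obtain ⟨d', rfl⟩ : ∃ d', d = d' + 1 := ⟨d - 1, by omega⟩
      rw [e1, Nat.add_sub_cancel, Nat.add_sub_cancel]
      have e2 : (A + 1) * (d' + 1) + r = q0 := by
        rw [hr, hq, hAA]
        ring
      have e3 : d' * A0 + A0 + 1 = q0 := by
        rw [hq]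
        ring
      have e4 : A + 1 ≤ q0 := by nlinarith
      have e5 : A + 1 ≤ A0 := by omega
      -- goal
      have e6 : (A + 1) * (d' + 1) = q0 - r := by omega
      rw [e6]
      obtain ⟨n, hn⟩ : ∃ n, q0 = n + r := ⟨q0 - r, by omega⟩
      have e7 : q0 - r = n := by omega
      rw [e7]
      have e8 : d' * (r * A0) + r * A0 + r = r * q0 := by
        rw [← e3]
        ring
      have e9 : r + 3 ≤ n := by omega
      have e10 : r * A0 ≥ r * (A + 1) := Nat.mul_le_mul_left _ e5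
      have e11 : n * (A + 1 + 2 * r + 1 + 1) = n * A + n * (2 * r + 3) := by ring
      have e12 : A * q0 = A * n + A * r := by rw [hn]; ring
      have e13 : r * q0 = r * n + r * r := by rw [hn]; ring
      have e14 : n * (2 * r + 3) = 2 * (r * n) + 3 * n := by ring
      rw [e11, e12, e14]
      have e15 : r * (A + 1) = A * r + r := by ring
      have e16 : r * (r + 3) ≤ r * n := Nat.mul_le_mul_left _ e9
      have e17 : r * (r + 3) = r * r + 3 * r := by ring
      have e18 : A * n = n * A := mul_comm _ _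
      omega)
  have hFne := F_ne_zero q0 A0 d r' hq hA f (by rw [hf, hr]) hf0 a ha0
  obtain ⟨F, hF⟩ : ∃ F : K[X], F = ∑ x, Ft q0 A0 f (a x) x.1 x.2 := ⟨_, rfl⟩
  rw [← hF] at hFne
  have hFdeg : F.natDegree ≤ A0 * q0 + (3 * r + 2) * q0 := by
    rw [hF]
    refine natDegree_sum_le_of_forall_le _ _ fun x _ => ?_
    by_cases hax : a x = 0
    · unfold Ft
      rw [hax, zero_pow (by omega)]
      simp
    · rw [natDegree_Ft q0 A0 d r' hq hA f (by rw [hf, hr]) hf0 _ hax]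
      have h1 := haD x
      have h2 := x.1.2
      have h3 := x.2.2
      have key : ∀ i j n : ℕ, i < A0 - r' → j < d → n ≤ A0 - r' + 2 * r + 1 →
          q0 * (n + j * r') + (i + j * (A0 - r')) ≤ A0 * q0 + (3 * r + 2) * q0 := by
        intro i j n h4 h5 h6
        obtain ⟨A, hAA⟩ : ∃ A, A = A0 - r' := ⟨_, rfl⟩
        rw [← hAA] at h4 h6 ⊢
        have e1 : A0 = A + r' := by omega
        have e2 : (j + 1) * A ≤ d * A := Nat.mul_le_mul_right _ h5
        have e3 : j * r' ≤ d * r' := Nat.mul_le_mul_right _ h5.le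
        have e4 : d * A ≤ q0 := by
          rw [hq, e1]
          nlinarith [Nat.zero_le (d * r')]
        have e5 : i + j * A ≤ q0 := by nlinarith
        have e6 : n + j * r' ≤ A0 + 3 * r + 1 := by omega
        calc q0 * (n + j * r') + (i + j * A)
            ≤ q0 * (A0 + 3 * r + 1) + q0 := Nat.add_le_add (Nat.mul_le_mul_left _ e6) e5
          _ = A0 * q0 + (3 * r + 2) * q0 := by ring
      exact key _ _ _ h2 h3 h1
  -- every x of the set is a root of F
  have hroot : ∀ x : K, f.eval x ^ (A0 * (q0 + 1)) = u → F.eval x = 0 := by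
    intro x hx
    obtain ⟨g, hg⟩ : ∃ g, g = f.eval x ^ A0 := ⟨_, rfl⟩
    have hgu : g * g ^ q0 = u := by
      rw [← hx, pow_mul, ← hg, pow_succ, mul_comm]
    have hg0 : g ≠ 0 := by
      rintro rfl
      rw [zero_mul] at hgu
      exact hu hgu.symm
    have hxq : ∀ y : K, y ^ (q0 * q0) = y := by
      intro y
      rw [← sq, ← hK]
      exact FiniteField.pow_card y
    have h1 : ∑ y : Fin (A0 - r') × Fin d, (a y).eval x * x ^ ((y.1 : ℕ) * q0) *
        (g ^ q0) ^ (y.2 : ℕ) = 0 := by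
      have h2 := congrArg (Polynomial.eval x) hrel
      rw [Polynomial.eval_finsetSum, eval_zero] at h2
      have h3 : ∀ y : Fin (A0 - r') × Fin d, eval x (a y * (X ^ ((y.1 : ℕ) * q0) *
          C (u ^ (y.2 : ℕ)) * (f ^ A0) ^ (d - 1 - (y.2 : ℕ)))) =
          ((a y).eval x * x ^ ((y.1 : ℕ) * q0) * (g ^ q0) ^ (y.2 : ℕ)) * g ^ (d - 1) := by
        intro y
        have hy := y.2.2
        obtain ⟨c, hc⟩ : ∃ c, d - 1 = (y.2 : ℕ) + c := ⟨d - 1 - (y.2 : ℕ), by omega⟩
        simp only [eval_mul, eval_pow, eval_X, eval_C]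
        rw [← hg, hc, Nat.add_sub_cancel_left, ← hgu, mul_pow, pow_add]
        ring
      rw [Finset.sum_congr rfl fun y _ => h3 y, ← Finset.sum_mul] at h2
      exact (mul_eq_zero.mp h2).resolve_right (pow_ne_zero _ hg0)
    have h6 := congrArg (· ^ q0) h1
    simp only [zero_pow (show q0 ≠ 0 by omega)] at h6
    rw [hq0, sum_pow_char_pow] at h6
    rw [← hq0] at h6
    rw [hF, Polynomial.eval_finsetSum, ← h6]
    refine Finset.sum_congr rfl fun y _ => ?_
    unfold Ft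
    simp only [eval_mul, eval_pow, eval_X]
    rw [← hg, mul_pow, mul_pow, ← pow_mul x, mul_assoc (y.1 : ℕ), mul_comm (y.1 : ℕ), pow_mul x,
      hxq, ← pow_mul (g ^ q0), mul_comm (y.2 : ℕ), pow_mul (g ^ q0), ← pow_mul g, hxq]
  have hcard : (Finset.univ.filter fun x : K => f.eval x ^ (A0 * (q0 + 1)) = u).card ≤
      F.natDegree := by
    apply Polynomial.card_le_degree_of_subset_roots
    intro x hx
    have hx' := Finset.mem_filter.mp (Finset.mem_val.mp hx)
    rw [Polynomial.mem_roots hFne]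
    exact hroot x hx'.2
  exact hcard.trans hFdeg

end Pool.H37.WM
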