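import Mathlib
import Pool.Agent.H37.WM.Nm
import Pool.Agent.H37.WM.St

/-!
# The sum over the field with `p ^ (2 m)` elements is `O(p ^ m)`
-/

set_option autoImplicit false

namespace Pool.H37.WM

open Finset Polynomial

variable {p : ℕ} [Fact p.Prime]

/-- the polynomial `∏ (a - X) ^ (e a)` over `K` -/
noncomputable def fp (K : Type) [Field K] [Algebra (ZMod p) K] (S : Finset (ZMod p))
    (e : ZMod p → ℕ) : K[X] := ∏ a ∈ S, (C (algebraMap (ZMod p) K a) - X) ^ e a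

theorem eval_fp {K : Type} [Field K] [Algebra (ZMod p) K] (S : Finset (ZMod p))
    (e : ZMod p → ℕ) (x : K) : (fp K S e).eval x = ∏ a ∈ S, (algebraMap (ZMod p) K a - x) ^ e a := by
  unfold fp
  rw [eval_prod]
  refine prod_congr rfl fun a _ => ?_
  simp

theorem natDegree_fp {K : Type} [Field K] [Algebra (ZMod p) K] (S : Finset (ZMod p))
    (e : ZMod p → ℕ) : (fp K S e).natDegree = ∑ a ∈ S, e a := by
  have hd : ∀ a : ZMod p, (C (algebraMap (ZMod p) K a) - X : K[X]).natDegree = 1 := by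
    intro a
    rw [← natDegree_neg, neg_sub, natDegree_X_sub_C]
  have h0 : ∀ a : ZMod p, (C (algebraMap (ZMod p) K a) - X : K[X]) ≠ 0 := by
    intro a h
    have := hd a
    rw [h, natDegree_zero] at this
    omega
  unfold fp
  rw [natDegree_prod _ _ fun a _ => pow_ne_zero _ (h0 a)]
  refine sum_congr rfl fun a _ => ?_
  rw [natDegree_pow, hd, mul_one]

open Classical in
theorem sk_le {K : Type} [Field K] [Fintype K] [Algebra (ZMod p) K] (χ : DirichletCharacter ℂ p)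
    (hχ : χ ≠ 1) (S : Finset (ZMod p)) (e : ZMod p → ℕ) (r' : ℕ)
    (hr : ∑ a ∈ S, e a = 1 + (p - 1) * r') (m : ℕ) (hK : Fintype.card K = (p ^ m) ^ 2)
    (hbig : 2 * (1 + (p - 1) * r') + 3 ≤ p ^ m) :
    ‖∑ x : K, χ (Algebra.norm (ZMod p) (∏ a ∈ S, (algebraMap (ZMod p) K a - x) ^ e a))‖ ≤
      ((p * (3 * (1 + (p - 1) * r') + 2) + (1 + (p - 1) * r') : ℕ) : ℝ) * (p : ℝ) ^ m := by
  have hpp : p.Prime := Fact.out
  have hp2 := hpp.two_le
  obtain ⟨r, hrr⟩ : ∃ r, r = 1 + (p - 1) * r' := ⟨_, rfl⟩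
  rw [← hrr] at hr hbig
  rw [← hrr]
  obtain ⟨q0, hq0⟩ : ∃ q0, q0 = p ^ m := ⟨_, rfl⟩
  obtain ⟨A0, hA0⟩ : ∃ A0, p ^ m = (p - 1) * A0 + 1 := by
    have h1 : (p - 1) ∣ p ^ m - 1 := by
      have := Nat.sub_dvd_pow_sub_pow p 1 m
      rwa [one_pow] at this
    obtain ⟨A0, h2⟩ := h1
    exact ⟨A0, by rw [← h2]; have := Nat.pos_of_ne_zero (pow_ne_zero m hpp.ne_zero); omega⟩
  have hchar : CharP K p := charP_of_injective_algebraMap (algebraMap (ZMod p) K).injective p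
  -- the exponent
  have hexp : (Nat.card K - 1) / (Nat.card (ZMod p) - 1) = A0 * (p ^ m + 1) := by
    rw [Nat.card_eq_fintype_card, hK, Nat.card_zmod, ← hq0]
    rw [← hq0] at hA0
    have h3 : q0 ^ 2 - 1 = (p - 1) * (A0 * (q0 + 1)) := by
      have h4 : q0 ^ 2 = (p - 1) * (A0 * (q0 + 1)) + 1 := by
        have : (p - 1) * (A0 * (q0 + 1)) + 1 = ((p - 1) * A0) * (q0 + 1) + 1 := by ring
        rw [this]
        obtain ⟨c, hc⟩ : ∃ c, c = (p - 1) * A0 := ⟨_, rfl⟩
        rw [← hc] at hA0 ⊢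
        rw [hA0]
        ring
      omega
    rw [h3, Nat.mul_div_cancel_left _ (by omega)]
  obtain ⟨f, hf⟩ : ∃ f : K[X], f = fp K S e := ⟨_, rfl⟩
  have hfd : f.natDegree = r := by rw [hf, natDegree_fp, hr]
  have hf0 : f ≠ 0 := by
    rintro h
    rw [h, natDegree_zero] at hfd
    omega
  have hfx : ∀ x : K, ∏ a ∈ S, (algebraMap (ZMod p) K a - x) ^ e a = f.eval x := fun x => by
    rw [hf, eval_fp]
  obtain ⟨B, hB⟩ : ∃ B : ℕ, B = A0 * p ^ m + (3 * r + 2) * p ^ m := ⟨_, rfl⟩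
  obtain ⟨n, hn⟩ : ∃ n : ZMod p → ℕ,
      n = fun u => (univ.filter fun x : K => Algebra.norm (ZMod p) (f.eval x) = u).card := ⟨_, rfl⟩
  have hcount : ∀ u : ZMod p, u ≠ 0 → n u ≤ B := by
    intro u hu
    have h1 := count p m A0 r' hA0 hK f (by rw [hfd, hrr]) (by rw [← hrr]; exact hbig)
      (algebraMap (ZMod p) K u) (by rwa [Ne, map_eq_zero])
    rw [← hrr] at h1
    rw [hB]
    refine le_trans (le_of_eq ?_) h1
    rw [hn]
    simp only
    congr 1
    ext x
    simp only [mem_filter, mem_univ, true_and]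
    rw [← hexp, ← FiniteField.algebraMap_norm_eq_pow]
    exact ⟨fun h => by rw [h], fun h => (algebraMap (ZMod p) K).injective h⟩
  have hn0 : n 0 ≤ r := by
    rw [hn]
    simp only
    rw [← hfd]
    apply Polynomial.card_le_degree_of_subset_roots
    intro x hx
    have hx' := Finset.mem_filter.mp (Finset.mem_val.mp hx)
    rw [Polynomial.mem_roots hf0]
    exact Algebra.norm_eq_zero_iff.1 hx'.2
  have htot : ∑ u, n u = (p ^ m) ^ 2 := by
    rw [← hK, ← card_univ, hn]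
    exact (card_eq_sum_card_fiberwise fun x _ => mem_univ _).symm
  have hsum : ∑ x : K, χ (Algebra.norm (ZMod p) (∏ a ∈ S, (algebraMap (ZMod p) K a - x) ^ e a)) =
      ∑ u : ZMod p, (n u : ℂ) * χ u := by
    simp only [hfx]
    rw [← sum_fiberwise_of_maps_to (s := univ) (t := univ)
      (g := fun x : K => Algebra.norm (ZMod p) (f.eval x)) (fun x _ => mem_univ _)]
    refine sum_congr rfl fun u _ => ?_
    rw [sum_congr rfl (g := fun _ => χ u) (fun x hx => by rw [(mem_filter.1 hx).2]), sum_const,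
      nsmul_eq_mul, hn]
  have hsum2 : ∑ u : ZMod p, (n u : ℂ) * χ u = ∑ u : ZMod p, ((n u : ℂ) - B) * χ u := by
    simp only [sub_mul, sum_sub_distrib]
    rw [← mul_sum, MulChar.sum_eq_zero_of_ne_one hχ, mul_zero, sub_zero]
  rw [hsum, hsum2]
  refine (norm_sum_le _ _).trans ?_
  have hterm : ∀ u ∈ (univ : Finset (ZMod p)), ‖((n u : ℂ) - B) * χ u‖ ≤
      if u = 0 then 0 else (B : ℝ) - n u := by
    intro u _
    split_ifs with h
    · rw [h, MulChar.map_zero, mul_zero, norm_zero]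
    · rw [norm_mul]
      have h1 : ‖((n u : ℂ) - B)‖ = (B : ℝ) - n u := by
        have h2 : ((n u : ℂ) - B) = ((-((B : ℝ) - n u) : ℝ) : ℂ) := by push_cast; ring
        rw [h2, Complex.norm_real, norm_neg, Real.norm_of_nonneg]
        have : (n u : ℝ) ≤ B := by exact_mod_cast hcount u h
        linarith
      rw [h1]
      have h3 : (0 : ℝ) ≤ (B : ℝ) - n u := by
        have : (n u : ℝ) ≤ B := by exact_mod_cast hcount u h
        linarith
      exact mul_le_of_le_one_right h3 (DirichletCharacter.norm_le_one χ u)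
  refine (sum_le_sum hterm).trans ?_
  have h5 : ∑ u : ZMod p, (if u = 0 then (0 : ℝ) else (B : ℝ) - n u) =
      ((p : ℝ) - 1) * B - ((p : ℝ) ^ m) ^ 2 + n 0 := by
    have h6 : ∀ u : ZMod p, (if u = 0 then (0 : ℝ) else (B : ℝ) - n u) =
        ((B : ℝ) - n u) - (if u = 0 then (B : ℝ) - n 0 else 0) := by
      intro u
      split_ifs with h
      · rw [h]; ring
      · ring
    simp only [h6, sum_sub_distrib, sum_ite_eq', mem_univ, if_true, sum_const, card_univ,
      ZMod.card, nsmul_eq_mul]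
    have h7 : ∑ u : ZMod p, (n u : ℝ) = ((p : ℝ) ^ m) ^ 2 := by exact_mod_cast htot
    rw [h7]
    ring
  rw [h5, hB]
  have h8 : (n 0 : ℝ) ≤ r := by exact_mod_cast hn0
  have h9 : ((p : ℝ) ^ m) = ((p : ℝ) - 1) * A0 + 1 := by
    have h10 : ((p ^ m : ℕ) : ℝ) = (((p - 1) * A0 + 1 : ℕ) : ℝ) := by exact_mod_cast hA0
    push_cast [Nat.cast_sub hpp.one_le] at h10
    exact h10
  have h11 : (1 : ℝ) ≤ (p : ℝ) ^ m := by
    have : (1 : ℝ) ≤ p := by exact_mod_cast hpp.one_le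
    exact one_le_pow₀ this
  obtain ⟨q, hq⟩ : ∃ q : ℝ, q = (p : ℝ) ^ m := ⟨_, rfl⟩
  push_cast
  rw [← hq] at h9 h11 ⊢
  have h12 : ((p : ℝ) - 1) * A0 = q - 1 := by linarith
  have h13 : ((p : ℝ) - 1) * (A0 * q + (3 * r + 2) * q) =
      (((p : ℝ) - 1) * A0) * q + ((p : ℝ) - 1) * (3 * r + 2) * q := by ring
  rw [h13, h12]
  have h14 : (0 : ℝ) ≤ (3 * r + 2) * q := by positivity
  have h15 : (r : ℝ) ≤ r * q := le_mul_of_one_le_right (Nat.cast_nonneg r) h11
  nlinarith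

end Pool.H37.WM
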