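import Mathlib
import Pool.Agent.H37.WM.Sk
import Pool.Agent.H37.WM.Lf
import Pool.Agent.H24.W.B7
import Pool.Agent.H24.W.C1

/-!
# Weil's bound, total exponent `1` mod `p - 1`

The L-function has degree `|S| - 1`; over the field with `p ^ (2 m)` elements the sum is `O(p ^ m)`, so its roots have
absolute value at most `√p`.
-/

set_option autoImplicit false

namespace Pool.H37.WM

open Finset Polynomial

variable {p : ℕ} [Fact p.Prime]

theorem weil_inf (χ : DirichletCharacter ℂ p) (hχ : χ ≠ 1) (S : Finset (ZMod p)) (e : ZMod p → ℕ)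
    (he : ∀ a ∈ S, 1 ≤ e a) (r' : ℕ) (hr : ∑ a ∈ S, e a = 1 + (p - 1) * r') :
    ‖∑ x : ZMod p, χ (∏ a ∈ S, (x - a) ^ e a)‖ ≤ S.card * √(p : ℝ) := by
  classical
  have hpp : p.Prime := Fact.out
  have hp1 : 1 < p := hpp.one_lt
  have hp0 : (0 : ℝ) < p := by exact_mod_cast hpp.pos
  -- a place with a nontrivial local character
  obtain ⟨v, hv, hχv⟩ : ∃ v : ZMod p, v ≠ 0 ∧ χ v ≠ 1 := by
    by_contra hcon
    push Not at hcon
    apply hχ
    ext a
    rw [MulChar.one_apply_coe]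
    exact hcon a a.ne_zero
  obtain ⟨a0, ha0, hχa⟩ : ∃ a0 ∈ S, χ (v ^ e a0) ≠ 1 := by
    by_contra hcon
    push Not at hcon
    apply hχv
    have h1 : χ (v ^ ∑ a ∈ S, e a) = 1 := by
      rw [← prod_pow_eq_pow_sum, map_prod]
      exact prod_eq_one hcon
    rwa [hr, pow_add, pow_one, pow_mul, ZMod.pow_card_sub_one_eq_one hv, one_pow, mul_one] at h1
  have hS : 0 < S.card := card_pos.2 ⟨a0, ha0⟩
  obtain ⟨ω, hω⟩ := Pool.Agent.H24.W.power_sums (S.card - 1) (bk (ch χ S e)) (tn (ch χ S e))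
    (bk_zero χ S e) (fun k hk => bk_van χ S e a0 ha0 v hv hχa k (by omega))
    (newton (ch χ S e) (ch_one χ S e) (fun g h _ _ => ch_mul χ S e g h))
  obtain ⟨m0, hm0⟩ : ∃ m0 : ℕ, 2 * (1 + (p - 1) * r') + 3 ≤ p ^ m0 :=
    ⟨2 * (1 + (p - 1) * r') + 3, (Nat.lt_pow_self hp1).le⟩
  have hbound : ∀ m ≥ m0 + 1, ‖∑ i, ω i ^ (2 * m)‖ ≤
      ((p * (3 * (1 + (p - 1) * r') + 2) + (1 + (p - 1) * r') : ℕ) : ℝ) * √(p : ℝ) ^ (2 * m) := by
    intro m hm
    have hmpos : 2 * m ≠ 0 := by omega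
    have hfr : Module.finrank (ZMod p) (GaloisField p (2 * m)) = 2 * m :=
      GaloisField.finrank p hmpos
    let iL : Fintype (GaloisField p (2 * m)) := Fintype.ofFinite _
    have hK : Fintype.card (GaloisField p (2 * m)) = (p ^ m) ^ 2 := by
      rw [Fintype.card_eq_nat_card, GaloisField.card p (2 * m) hmpos, ← pow_mul, mul_comm]
    have h1 := sk_le (K := GaloisField p (2 * m)) χ hχ S e r' hr m hK
      (hm0.trans (Nat.pow_le_pow_right hpp.pos (by omega)))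
    have h2 := sum_min (K := GaloisField p (2 * m)) (ch χ S e)
    rw [sum_congr rfl fun x _ => ch_min χ S e x] at h2
    rw [h2, hfr, hω (2 * m) (by omega), norm_neg] at h1
    rw [pow_mul, Real.sq_sqrt hp0.le]
    exact h1
  have hle : ∀ i, ‖ω i‖ ≤ √(p : ℝ) := fun i =>
    Pool.Agent.H24.W.bound_of_power_sums (S.card - 1) ω _ (√(p : ℝ)) (Real.sqrt_pos.mpr hp0) (m0 + 1)
      hbound i
  have h3 := sum_min (K := ZMod p) (ch χ S e)
  rw [sum_congr rfl fun x _ => ch_min χ S e x, Module.finrank_self, hω 1 le_rfl] at h3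
  have h4 : ∑ x : ZMod p, χ (∏ a ∈ S, (x - a) ^ e a) =
      χ ((-1) ^ ∑ a ∈ S, e a) * ∑ x : ZMod p,
        χ (Algebra.norm (ZMod p) (∏ a ∈ S, (algebraMap (ZMod p) (ZMod p) a - x) ^ e a)) := by
    rw [mul_sum]
    refine sum_congr rfl fun x _ => ?_
    rw [Algebra.norm_self, MonoidHom.id_apply, ← map_mul, ← prod_pow_eq_pow_sum, ← prod_mul_distrib]
    congr 1
    refine prod_congr rfl fun a _ => ?_
    rw [← mul_pow]
    congr 1
    simp
  rw [h4, h3, norm_mul, norm_neg]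
  calc ‖χ ((-1) ^ ∑ a ∈ S, e a)‖ * ‖∑ i, ω i ^ 1‖ ≤ 1 * ‖∑ i, ω i ^ 1‖ :=
        mul_le_mul_of_nonneg_right (DirichletCharacter.norm_le_one χ _) (norm_nonneg _)
    _ = ‖∑ i, ω i ^ 1‖ := one_mul _
    _ ≤ ∑ i : Fin (S.card - 1), ‖ω i ^ 1‖ := norm_sum_le _ _
    _ ≤ ∑ _i : Fin (S.card - 1), √(p : ℝ) := Finset.sum_le_sum fun i _ => by
        rw [pow_one]; exact hle i
    _ = ((S.card - 1 : ℕ) : ℝ) * √(p : ℝ) := by
        rw [sum_const, card_univ, Fintype.card_fin, nsmul_eq_mul]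
    _ ≤ S.card * √(p : ℝ) := by
        refine mul_le_mul_of_nonneg_right ?_ (Real.sqrt_nonneg _)
        exact_mod_cast Nat.sub_le _ _

end Pool.H37.WM
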