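import Mathlib
import Pool.Agent.H37.WM.Wl

/-!
# Weil's bound, general case, from the case of total exponent `1`

`x = a0 + 1 / u`, `b(a) = 1 / (a - a0)`: for `a ≠ a0`, `x - a = (a0 - a) (u - b(a)) / u`, `x - a0 = 1 / u`, so
`∏ (x - a)^(e a) = ∏_{a ≠ a0} (a0 - a)^(e a) * u^(-∑_S e) * ∏_{a ≠ a0} (u - b(a))^(e a)`, total exponent `- e a0`.
If `e a0 = 1` take the complex conjugate first (`conj χ(y) = χ(y⁻¹)`, exponents `- e`).  Replace every exponent `z` by
`n(z) = (z % (p - 1) + (p - 1)).toNat ≥ 1` (`y ^ z = y ^ n(z)` for `y ≠ 0`, `ZMod.pow_card_sub_one_eq_one`), then the terms with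
`u ∈ S' = {0} ∪ b(S \ a0)` vanish, the total exponent is `1` mod `p - 1`, and `weil_inf` for `S'`, `|S'| = |S|`, applies.
(`p = 2`: there is no `χ ≠ 1`.)
-/

set_option autoImplicit false

namespace Pool.H37.WM

open Finset

variable {p : ℕ} [Fact p.Prime]

private theorem weil_int (χ : DirichletCharacter ℂ p) (hχ : χ ≠ 1) (S : Finset (ZMod p))
    (E : ZMod p → ℤ) (hE : ∑ a ∈ S, E a = 1) :
    ‖∑ x ∈ Finset.univ \ S, χ (∏ a ∈ S, (x - a) ^ E a)‖ ≤ S.card * √(p : ℝ) := by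
  classical
  have hpp : p.Prime := Fact.out
  have hp1 : 1 < p := hpp.one_lt
  have hcast : ((p - 1 : ℕ) : ℤ) = (p : ℤ) - 1 := by
    rw [Nat.cast_sub hp1.le]
    simp
  have hm : (0 : ℤ) < (p : ℤ) - 1 := by
    have : (1 : ℤ) < (p : ℤ) := by exact_mod_cast hp1
    linarith
  set n : ZMod p → ℕ := fun a => (E a % ((p : ℤ) - 1) + ((p : ℤ) - 1)).toNat with hn
  have hn0 : ∀ a, (n a : ℤ) = E a % ((p : ℤ) - 1) + ((p : ℤ) - 1) := by
    intro a
    rw [hn]
    exact Int.toNat_of_nonneg (add_nonneg (Int.emod_nonneg _ hm.ne') hm.le)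
  have hn1 : ∀ a, 1 ≤ n a := by
    intro a
    have h1 := Int.emod_nonneg (E a) hm.ne'
    have h2 := hn0 a
    omega
  have hn2 : ∀ a, (n a : ℤ) = E a + ((p : ℤ) - 1) * (1 - E a / ((p : ℤ) - 1)) := by
    intro a
    rw [hn0 a, Int.emod_def]
    ring
  have hpow : ∀ a (y : ZMod p), y ≠ 0 → y ^ E a = y ^ n a := by
    intro a y hy
    rw [← zpow_natCast y (n a), hn2 a, zpow_add₀ hy, zpow_mul, ← hcast, zpow_natCast,
      ZMod.pow_card_sub_one_eq_one hy, one_zpow, mul_one]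
  have hne : S.Nonempty := by
    rw [Finset.nonempty_iff_ne_empty]
    rintro rfl
    simp at hE
  obtain ⟨r', hr⟩ : ∃ r' : ℕ, ∑ a ∈ S, n a = 1 + (p - 1) * r' := by
    have h1 : ((∑ a ∈ S, n a : ℕ) : ℤ) =
        1 + ((p : ℤ) - 1) * ∑ a ∈ S, (1 - E a / ((p : ℤ) - 1)) := by
      rw [Nat.cast_sum, Finset.sum_congr rfl (fun a _ => hn2 a), Finset.sum_add_distrib, hE,
        Finset.mul_sum]
    set K : ℤ := ∑ a ∈ S, (1 - E a / ((p : ℤ) - 1)) with hK
    have h2 : 1 ≤ ∑ a ∈ S, n a := by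
      obtain ⟨a, ha⟩ := hne
      exact le_trans (hn1 a) (Finset.single_le_sum (fun x _ => Nat.zero_le (n x)) ha)
    have h3 : 0 ≤ K := by
      by_contra hcon
      push Not at hcon
      have h4 : (1 : ℤ) ≤ ((∑ a ∈ S, n a : ℕ) : ℤ) := by exact_mod_cast h2
      rw [h1] at h4
      nlinarith
    obtain ⟨r', hr'⟩ := Int.eq_ofNat_of_zero_le h3
    refine ⟨r', ?_⟩
    have h5 : ((∑ a ∈ S, n a : ℕ) : ℤ) = ((1 + (p - 1) * r' : ℕ) : ℤ) := by
      rw [h1, hr']
      push_cast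
      rw [hcast]
    exact_mod_cast h5
  have h := weil_inf χ hχ S n (fun a _ => hn1 a) r' hr
  have heq : ∑ x ∈ Finset.univ \ S, χ (∏ a ∈ S, (x - a) ^ E a) =
      ∑ x : ZMod p, χ (∏ a ∈ S, (x - a) ^ n a) := by
    rw [← Finset.sum_subset (Finset.sdiff_subset (s := Finset.univ) (t := S))]
    · refine Finset.sum_congr rfl fun x hx => ?_
      congr 1
      refine Finset.prod_congr rfl fun a ha => hpow a _ ?_
      intro h0
      rw [sub_eq_zero.1 h0] at hx
      exact (Finset.mem_sdiff.1 hx).2 ha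
    · intro x _ hx
      have hxS : x ∈ S := by
        by_contra hcon
        exact hx (Finset.mem_sdiff.2 ⟨Finset.mem_univ x, hcon⟩)
      have h0 : ∏ a ∈ S, (x - a) ^ n a = 0 := by
        refine Finset.prod_eq_zero hxS ?_
        rw [sub_self]
        exact zero_pow (by have := hn1 x; omega)
      rw [h0]
      exact MulChar.map_zero χ
  rw [heq]
  exact h

private theorem weil_pm (χ : DirichletCharacter ℂ p) (hχ : χ ≠ 1) (S : Finset (ZMod p))
    (E : ZMod p → ℤ) (hE : ∑ a ∈ S, E a = 1 ∨ ∑ a ∈ S, E a = -1) :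
    ‖∑ x ∈ Finset.univ \ S, χ (∏ a ∈ S, (x - a) ^ E a)‖ ≤ S.card * √(p : ℝ) := by
  classical
  rcases hE with hE | hE
  · exact weil_int χ hχ S E hE
  · have h := weil_int χ hχ S (fun a => - E a) (by rw [Finset.sum_neg_distrib, hE]; norm_num)
    have heq : ∑ x ∈ Finset.univ \ S, χ (∏ a ∈ S, (x - a) ^ (- E a)) =
        (starRingEnd ℂ) (∑ x ∈ Finset.univ \ S, χ (∏ a ∈ S, (x - a) ^ E a)) := by
      rw [map_sum]
      refine Finset.sum_congr rfl fun x _ => ?_
      have h1 : ∏ a ∈ S, (x - a) ^ (- E a) = (∏ a ∈ S, (x - a) ^ E a)⁻¹ := by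
        rw [← Finset.prod_inv_distrib]
        exact Finset.prod_congr rfl fun a _ => zpow_neg _ _
      rw [h1, ← MulChar.inv_apply' χ, ← MulChar.star_apply' χ]
      rfl
    rw [heq, RCLike.norm_conj] at h
    exact h

theorem weil (χ : DirichletCharacter ℂ p) (hχ : χ ≠ 1) (S : Finset (ZMod p)) (e : ZMod p → ℤ)
    (a0 : ZMod p) (ha0 : a0 ∈ S) (he : e a0 = 1 ∨ e a0 = -1) :
    ‖∑ x ∈ Finset.univ \ S, χ (∏ a ∈ S, (x - a) ^ e a)‖ ≤ S.card * √(p : ℝ) := by
  classical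
  set b : ZMod p → ZMod p := fun a => (a - a0)⁻¹ with hb
  set B : Finset (ZMod p) := (S.erase a0).image b with hB
  set S' : Finset (ZMod p) := insert 0 B with hS'
  set E : ZMod p → ℤ := fun v => if v = 0 then - ∑ a ∈ S, e a else e (a0 + v⁻¹) with hEdef
  have hb0 : ∀ a, a ≠ a0 → b a ≠ 0 := by
    intro a ha h
    exact ha (sub_eq_zero.1 (inv_eq_zero.1 h))
  have hbinv : ∀ a, a0 + (b a)⁻¹ = a := by
    intro a
    rw [hb]
    simp
  have hbinj : Set.InjOn b (S.erase a0) := by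
    intro x _ y _ h
    rw [← hbinv x, ← hbinv y, h]
  have h0B : (0 : ZMod p) ∉ B := by
    intro h
    obtain ⟨a, ha, h1⟩ := Finset.mem_image.1 h
    exact hb0 a (Finset.ne_of_mem_erase ha) h1
  have hcard : S'.card = S.card := by
    rw [hS', Finset.card_insert_of_notMem h0B, hB, Finset.card_image_of_injOn hbinj,
      Finset.card_erase_of_mem ha0]
    have : 1 ≤ S.card := Finset.card_pos.2 ⟨a0, ha0⟩
    omega
  have hEb : ∀ a ∈ S.erase a0, E (b a) = e a := by
    intro a ha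
    rw [hEdef]
    simp only
    rw [if_neg (hb0 a (Finset.ne_of_mem_erase ha)), hbinv a]
  have hE0 : E 0 = - ∑ a ∈ S, e a := by
    rw [hEdef]
    simp
  have htot : ∑ v ∈ S', E v = - e a0 := by
    rw [hS', Finset.sum_insert h0B, hE0, hB, Finset.sum_image hbinj,
      Finset.sum_congr rfl hEb, ← Finset.add_sum_erase S e ha0]
    ring
  have h := weil_pm χ hχ S' E (by rw [htot]; rcases he with h | h <;> rw [h] <;> norm_num)
  rw [hcard] at h
  set K : ZMod p := ∏ a ∈ S.erase a0, (a0 - a) ^ e a with hK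
  have hterm : ∀ u, u ≠ 0 → ∏ a ∈ S, (a0 + u⁻¹ - a) ^ e a = K * ∏ v ∈ S', (u - v) ^ E v := by
    intro u hu
    have h1 : ∀ a ∈ S.erase a0, (a0 + u⁻¹ - a) ^ e a =
        (a0 - a) ^ e a * ((u - b a) ^ e a * u ^ (- e a)) := by
      intro a ha
      have hne : a - a0 ≠ 0 := sub_ne_zero.2 (Finset.ne_of_mem_erase ha)
      have h2 : a0 + u⁻¹ - a = (a0 - a) * ((u - b a) * u⁻¹) := by
        rw [hb]
        field_simp
        ring
      rw [h2, mul_zpow, mul_zpow, inv_zpow, ← zpow_neg]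
    rw [hS', Finset.prod_insert h0B, hB, Finset.prod_image hbinj, hE0, sub_zero,
      ← Finset.mul_prod_erase S _ ha0, Finset.prod_congr rfl h1, Finset.prod_mul_distrib,
      Finset.prod_mul_distrib, add_sub_cancel_left]
    have h3 : ∏ a ∈ S.erase a0, (u - b a) ^ E (b a) = ∏ a ∈ S.erase a0, (u - b a) ^ e a :=
      Finset.prod_congr rfl fun a ha => by rw [hEb a ha]
    have h4 : ∏ a ∈ S.erase a0, u ^ (- e a) = u ^ (- ∑ a ∈ S.erase a0, e a) := by
      rw [← Finset.sum_neg_distrib]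
      induction S.erase a0 using Finset.induction_on with
      | empty => simp
      | insert x s hx ih => rw [Finset.prod_insert hx, Finset.sum_insert hx, zpow_add₀ hu, ih]
    rw [h3, h4, ← Finset.add_sum_erase S e ha0, neg_add, zpow_add₀ hu, inv_zpow, ← zpow_neg]
    ring
  have hsum : ∑ x ∈ Finset.univ \ S, χ (∏ a ∈ S, (x - a) ^ e a) =
      χ K * ∑ u ∈ Finset.univ \ S', χ (∏ v ∈ S', (u - v) ^ E v) := by
    rw [Finset.mul_sum]
    symm
    refine Finset.sum_bij' (fun u _ => a0 + u⁻¹) (fun x _ => b x) ?_ ?_ ?_ ?_ ?_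
    · intro u hu
      have hu' := (Finset.mem_sdiff.1 hu).2
      refine Finset.mem_sdiff.2 ⟨Finset.mem_univ _, fun hx => ?_⟩
      have hu0 : u ≠ 0 := fun h0 => hu' (by rw [h0, hS']; exact Finset.mem_insert_self 0 B)
      refine hu' ?_
      rw [hS', hB]
      refine Finset.mem_insert_of_mem (Finset.mem_image.2 ⟨a0 + u⁻¹, ?_, ?_⟩)
      · refine Finset.mem_erase.2 ⟨?_, hx⟩
        intro h0
        exact hu0 (inv_eq_zero.1 (by linear_combination h0))
      · rw [hb]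
        simp
    · intro x hx
      have hx' := (Finset.mem_sdiff.1 hx).2
      refine Finset.mem_sdiff.2 ⟨Finset.mem_univ _, fun hv => ?_⟩
      have hxa : x ≠ a0 := fun h0 => hx' (by rw [h0]; exact ha0)
      rw [hS'] at hv
      rcases Finset.mem_insert.1 hv with h0 | h1
      · exact hb0 x hxa h0
      · obtain ⟨a, ha, h2⟩ := Finset.mem_image.1 h1
        have h3 : a = x := by rw [← hbinv a, ← hbinv x, h2]
        exact hx' (h3 ▸ Finset.mem_of_mem_erase ha)
    · intro u _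
      rw [hb]
      simp
    · intro x _
      exact hbinv x
    · intro u hu
      have hu' := (Finset.mem_sdiff.1 hu).2
      have hu0 : u ≠ 0 := fun h0 => hu' (by rw [h0, hS']; exact Finset.mem_insert_self 0 B)
      rw [hterm u hu0, map_mul]
  rw [hsum, norm_mul]
  calc ‖χ K‖ * ‖∑ u ∈ Finset.univ \ S', χ (∏ v ∈ S', (u - v) ^ E v)‖
      ≤ 1 * ‖∑ u ∈ Finset.univ \ S', χ (∏ v ∈ S', (u - v) ^ E v)‖ :=
        mul_le_mul_of_nonneg_right (χ.norm_le_one K) (norm_nonneg _)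
    _ ≤ _ := by rw [one_mul]; exact h

end Pool.H37.WM
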