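import Mathlib
import Pool.Agent.H37.WM.Mb
import Pool.Agent.H2.EL.Def

/-!
# Weil's bound for products of shifted characters and their conjugates

`S = image ρ univ`, `e a = ∑_{j, ρ j = a} (if c j then 1 else -1)`, so `e (ρ j0) = ±1`.  At `s ∉ S` the product is
`χ (∏_{a ∈ S} (s - a) ^ e a)` (`conj χ(y) = χ(y⁻¹)`, `MulChar.star_apply'`, `MulChar.inv_apply'`, see `H37/CM/Ms` `cj_chi`), at
`s ∈ S` one factor is `0`.
-/

set_option autoImplicit false

namespace Pool.H37.WM

open Finset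

variable {p : ℕ} [Fact p.Prime]

private theorem prod_zpow_sum {K : Type*} [Field K] {ι : Type} (t : Finset ι) (f : ι → ℤ) {x : K}
    (hx : x ≠ 0) : ∏ j ∈ t, x ^ f j = x ^ ∑ j ∈ t, f j := by
  classical
  induction t using Finset.induction_on with
  | empty => simp
  | insert a t ha ih => rw [prod_insert ha, sum_insert ha, ih, zpow_add₀ hx]

private theorem cj_chi' (c : Bool) (χ : DirichletCharacter ℂ p) (y : ZMod p) :
    Pool.H2.EL.cj c (χ y) = χ (y ^ (if c then (1 : ℤ) else -1)) := by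
  unfold Pool.H2.EL.cj
  cases c
  · rw [if_neg (by simp), if_neg (by simp), zpow_neg_one, ← MulChar.inv_apply', ← MulChar.star_apply']
    rfl
  · rw [if_pos rfl, if_pos rfl, zpow_one]

theorem weil_prod (χ : DirichletCharacter ℂ p) (hχ : χ ≠ 1) (ι : Type) [Fintype ι]
    (ρ : ι → ZMod p) (c : ι → Bool) (j0 : ι) (hj0 : ∀ j, ρ j = ρ j0 → j = j0) :
    ‖∑ s : ZMod p, ∏ j, Pool.H2.EL.cj (c j) (χ (s - ρ j))‖ ≤ Fintype.card ι * √(p : ℝ) := by
  classical
  obtain ⟨S, hS⟩ : ∃ S : Finset (ZMod p), S = univ.image ρ := ⟨_, rfl⟩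
  obtain ⟨e, he⟩ : ∃ e : ZMod p → ℤ, ∀ a, e a = ∑ j ∈ univ.filter (fun j => ρ j = a),
      (if c j then (1 : ℤ) else -1) := ⟨_, fun _ => rfl⟩
  have hmem : ρ j0 ∈ S := by
    rw [hS]
    exact mem_image_of_mem _ (mem_univ _)
  have he0 : e (ρ j0) = 1 ∨ e (ρ j0) = -1 := by
    rw [he]
    have h1 : univ.filter (fun j => ρ j = ρ j0) = {j0} := by
      ext j
      simp only [mem_filter, mem_univ, true_and, mem_singleton]
      exact ⟨hj0 j, fun h => by rw [h]⟩
    rw [h1, sum_singleton]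
    cases c j0 <;> simp
  have hmain := weil χ hχ S e (ρ j0) hmem he0
  have hsum : ∑ s : ZMod p, ∏ j, Pool.H2.EL.cj (c j) (χ (s - ρ j)) =
      ∑ x ∈ univ \ S, χ (∏ a ∈ S, (x - a) ^ e a) := by
    rw [← sum_sdiff (subset_univ S)]
    have h2 : ∑ s ∈ S, ∏ j, Pool.H2.EL.cj (c j) (χ (s - ρ j)) = 0 := by
      refine sum_eq_zero fun s hs => ?_
      rw [hS, mem_image] at hs
      obtain ⟨j, -, hj⟩ := hs
      refine prod_eq_zero (mem_univ j) ?_
      rw [hj, sub_self, MulChar.map_zero]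
      unfold Pool.H2.EL.cj
      cases c j <;> simp
    rw [h2, add_zero]
    refine sum_congr rfl fun s hs => ?_
    rw [mem_sdiff] at hs
    rw [prod_congr rfl fun j _ => cj_chi' (c j) χ (s - ρ j), ← map_prod]
    congr 1
    have h3 : ∀ j ∈ (univ : Finset ι), ρ j ∈ S := fun j _ => by
      rw [hS]
      exact mem_image_of_mem _ (mem_univ _)
    rw [← prod_fiberwise_of_maps_to h3]
    refine prod_congr rfl fun a ha => ?_
    have h4 : s - a ≠ 0 := by
      intro h
      exact hs.2 (by rwa [sub_eq_zero.mp h])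
    rw [he, ← prod_zpow_sum _ _ h4]
    refine prod_congr rfl fun j hj => ?_
    rw [(mem_filter.mp hj).2]
  rw [hsum]
  refine hmain.trans ?_
  have h5 : S.card ≤ Fintype.card ι := by
    rw [hS]
    exact card_image_le.trans (by rw [card_univ])
  exact mul_le_mul_of_nonneg_right (by exact_mod_cast h5) (Real.sqrt_nonneg _)

end Pool.H37.WM
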